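import Mathlib

/-!
# Dedekind finiteness is a closed condition in the Wijsman topology

For every unital complex Banach algebra `A`, the set of all proper closed two-sided ideals `K` of
`A` with `A / K` Dedekind finite is closed in the space of all proper closed two-sided ideals with
the Wijsman topology. In particular it is `Σ⁰₂` (and `Δ⁰₂`), so the bound `Π⁰₂` is not sharp.
-/

set_option autoImplicit false

namespace Pool.Agent.Results.MP_332c3b_lc.DedekindFiniteClosed

/-- The proper closed two-sided ideals of a normed ring. -/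
structure ProperIdeal (A : Type) [NormedRing A] where
  /-- the underlying two-sided ideal -/
  ideal : TwoSidedIdeal A
  /-- it is closed -/
  closed : IsClosed (ideal : Set A)
  /-- it is proper -/
  proper : ideal ≠ ⊤

/-- The Wijsman topology: the weakest topology making `K ↦ d(x, K)` continuous for every `x`. -/
noncomputable instance wijsman (A : Type) [NormedRing A] : TopologicalSpace (ProperIdeal A) :=
  TopologicalSpace.induced (fun K x => Metric.infDist x (K.ideal : Set A)) Pi.topologicalSpace

/-- The quotient algebra `A / K` is Dedekind finite: `x y = 1` implies `y x = 1`. -/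
def QuotientDedekindFinite {A : Type} [NormedRing A] (K : ProperIdeal A) : Prop :=
  ∀ x y : K.ideal.ringCon.Quotient, x * y = 1 → y * x = 1

theorem dedekind_iff {A : Type} [NormedRing A] (K : ProperIdeal A) :
    QuotientDedekindFinite K ↔ ∀ a b : A, 1 - a * b ∈ K.ideal → 1 - b * a ∈ K.ideal := by
  have key : ∀ a b : A, ((a : K.ideal.ringCon.Quotient) * b = 1) ↔ 1 - a * b ∈ K.ideal := by
    intro a b
    rw [← TwoSidedIdeal.rel_iff, ← RingCon.coe_mul, ← RingCon.coe_one, eq_comm, RingCon.eq]
  constructor
  · intro h a b hab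
    exact (key b a).1 (h a b ((key a b).2 hab))
  · intro h x y
    induction x using Quotient.inductionOn' with
    | _ a =>
      induction y using Quotient.inductionOn' with
      | _ b =>
        intro hxy
        exact (key b a).2 (h a b ((key a b).1 hxy))

theorem continuous_infDist {A : Type} [NormedRing A] (x : A) :
    Continuous fun K : ProperIdeal A => Metric.infDist x (K.ideal : Set A) :=
  (continuous_apply (A := fun _ : A => ℝ) x).comp (continuous_induced_dom
    (f := fun (K : ProperIdeal A) (x : A) => Metric.infDist x (K.ideal : Set A)))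

theorem infDist_le_of_sub_mem {A : Type} [NormedRing A] (K : ProperIdeal A) {x y : A}
    (h : x - y ∈ K.ideal) : Metric.infDist x (K.ideal : Set A) ≤ ‖y‖ := by
  refine (Metric.infDist_le_dist_of_mem h).trans (le_of_eq ?_)
  rw [dist_eq_norm, sub_sub_cancel]

/-- For every unital complex Banach algebra `A`, the set of all proper closed two-sided ideals `K`
such that `A / K` is Dedekind finite is closed in the Wijsman topology. -/
theorem result (A : Type) [NormedRing A] [NormedAlgebra ℂ A] [CompleteSpace A] :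
    IsClosed {K : ProperIdeal A | QuotientDedekindFinite K} := by
  rw [← isOpen_compl_iff, isOpen_iff_mem_nhds]
  intro K hK
  rw [Set.mem_compl_iff, Set.mem_ofPred_eq, dedekind_iff] at hK
  push Not at hK
  obtain ⟨a, b, hab, hba⟩ := hK
  have hne : (K.ideal : Set A).Nonempty := ⟨0, K.ideal.zero_mem⟩
  have h0 : Metric.infDist (1 - a * b) (K.ideal : Set A) = 0 :=
    Metric.infDist_zero_of_mem hab
  have hδ : 0 < Metric.infDist (1 - b * a) (K.ideal : Set A) := by
    rw [← K.closed.notMem_iff_infDist_pos hne]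
    exact hba
  set δ := Metric.infDist (1 - b * a) (K.ideal : Set A) with hδdef
  set C : ℝ := ‖b‖ * (2 * ‖(1 : A)‖) * ‖a‖ with hC
  have hC0 : 0 ≤ C := by positivity
  obtain ⟨ε, hε0, hε1, hε2⟩ : ∃ ε : ℝ, 0 < ε ∧ ε ≤ 1 / 2 ∧ C * ε < δ / 2 := by
    refine ⟨min (1 / 2) (δ / 4 / (C + 1)), lt_min (by norm_num) (by positivity),
      min_le_left _ _, ?_⟩
    have h1 : C * min (1 / 2) (δ / 4 / (C + 1)) ≤ C * (δ / 4 / (C + 1)) :=
      mul_le_mul_of_nonneg_left (min_le_right _ _) hC0
    have h2 : C * (δ / 4 / (C + 1)) ≤ δ / 4 := by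
      rw [mul_div_assoc', div_le_iff₀ (by positivity)]
      nlinarith
    linarith
  have h1 : ∀ᶠ K' : ProperIdeal A in nhds K,
      Metric.infDist (1 - a * b) (K'.ideal : Set A) < ε :=
    ((continuous_infDist (1 - a * b)).tendsto K).eventually (gt_mem_nhds (by rw [h0]; exact hε0))
  have h2 : ∀ᶠ K' : ProperIdeal A in nhds K,
      δ / 2 < Metric.infDist (1 - b * a) (K'.ideal : Set A) :=
    ((continuous_infDist (1 - b * a)).tendsto K).eventually
      (lt_mem_nhds (by rw [← hδdef]; linarith))
  filter_upwards [h1, h2] with K' h3 h4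
  rw [Set.mem_compl_iff, Set.mem_ofPred_eq, dedekind_iff]
  intro hdf
  have hne' : (K'.ideal : Set A).Nonempty := ⟨0, K'.ideal.zero_mem⟩
  obtain ⟨k, hk, hkd⟩ := (Metric.infDist_lt_iff hne').1 h3
  rw [dist_eq_norm] at hkd
  set t : A := 1 - a * b - k with ht
  have ht1 : ‖t‖ < 1 := by linarith
  set u := Units.oneSub t ht1 with hu
  have hval : (u : A) = 1 - t := rfl
  set v : A := ((u⁻¹ : Aˣ) : A) with hv
  have huv : (1 - t) * v = 1 := by rw [← hval]; exact u.mul_inv
  have hvu : v * (1 - t) = 1 := by rw [← hval]; exact u.inv_mul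
  have hv1 : v = 1 + v * t := by
    have := hvu
    rw [mul_sub, mul_one, sub_eq_iff_eq_add] at this
    exact this
  have hvn : ‖v‖ ≤ 2 * ‖(1 : A)‖ := by
    have h5 : ‖v‖ ≤ ‖(1 : A)‖ + ‖v‖ * ‖t‖ := by
      conv_lhs => rw [hv1]
      exact (norm_add_le _ _).trans (by gcongr; exact norm_mul_le _ _)
    have h6 : ‖v‖ * ‖t‖ ≤ ‖v‖ * (1 / 2) :=
      mul_le_mul_of_nonneg_left (by linarith) (norm_nonneg _)
    linarith
  have h7 : 1 - a * (b * v) ∈ K'.ideal := by
    have h8 : 1 - a * (b * v) = k * v := by
      have h9 : a * b = 1 - t - k := by rw [ht]; abel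
      rw [← mul_assoc, h9, sub_mul, huv]
      abel
    rw [h8]
    exact K'.ideal.mul_mem_right _ _ hk
  have h10 := hdf a (b * v) h7
  have h11 : Metric.infDist (1 - b * a) (K'.ideal : Set A) ≤ ‖b * (v - 1) * a‖ := by
    apply infDist_le_of_sub_mem
    have : 1 - b * a - b * (v - 1) * a = 1 - b * v * a := by noncomm_ring
    rw [this]
    exact h10
  have h12 : ‖b * (v - 1) * a‖ ≤ C * ε := by
    have h13 : v - 1 = v * t := by rw [sub_eq_iff_eq_add, add_comm]; exact hv1
    calc ‖b * (v - 1) * a‖ ≤ ‖b * (v - 1)‖ * ‖a‖ := norm_mul_le _ _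
      _ ≤ ‖b‖ * ‖v - 1‖ * ‖a‖ := by gcongr; exact norm_mul_le _ _
      _ ≤ ‖b‖ * (2 * ‖(1 : A)‖ * ε) * ‖a‖ := by
          gcongr
          rw [h13]
          exact (norm_mul_le _ _).trans (mul_le_mul hvn hkd.le (norm_nonneg _) (by positivity))
      _ = C * ε := by rw [hC]; ring
  linarith

end Pool.Agent.Results.MP_332c3b_lc.DedekindFiniteClosed
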